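import Mathlib
import Pool.Agent.H267R3.Folk

/-!
# Partite construction for systems with two types of edges

The argument follows `Pool/Agent/H267R3/Folk.lean` (one type of edges); here a system carries two
disjoint graphs (red and blue edges), both of which are coloured.
-/

set_option autoImplicit false

open Combinatorics

namespace R889.Tri

/-- A system with `N` parts and two types of edges. -/
structure Sys (N : ℕ) where
  X : Type
  fin : Finite X
  Γ : Bool → SimpleGraph X
  π : X → Fin N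
  part : ∀ u x y, (Γ u).Adj x y → π x ≠ π y
  disj : ∀ u v x y, (Γ u).Adj x y → (Γ v).Adj x y → u = v

/-- A part-preserving homomorphism of systems. -/
structure Emb {N : ℕ} (P Q : Sys N) where
  f : P.X → Q.X
  adj : ∀ u x y, (P.Γ u).Adj x y → (Q.Γ u).Adj (f x) (f y)
  part : ∀ x, Q.π (f x) = P.π x

section Step

variable {N : ℕ} (P : Sys N) (a b : Fin N) (s : Bool)

/-- Edges of type `s` between part `a` and part `b`. -/
abbrev E : Type := {e : P.X × P.X // P.π e.1 = a ∧ P.π e.2 = b ∧ (P.Γ s).Adj e.1 e.2}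

variable {P a b s} {ι : Type}

open Classical in
/-- The copy of `P` belonging to the line `l`. -/
noncomputable def F (l : Line (E P a b s) ι) (x : P.X) :
    Option (Line (E P a b s) ι) × (ι → P.X) :=
  if P.π x = a then (none, fun t => (l.idxFun t).elim x (fun e => e.1.1))
  else if P.π x = b then (none, fun t => (l.idxFun t).elim x (fun e => e.1.2))
  else (some l, fun _ => x)

lemma F_a (l : Line (E P a b s) ι) {x : P.X} (h : P.π x = a) :
    F l x = (none, fun t => (l.idxFun t).elim x (fun e => e.1.1)) := by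
  simp [F, h]

lemma F_b (hab : a ≠ b) (l : Line (E P a b s) ι) {x : P.X} (h : P.π x = b) :
    F l x = (none, fun t => (l.idxFun t).elim x (fun e => e.1.2)) := by
  have : P.π x ≠ a := by rw [h]; exact hab.symm
  simp [F, h, hab.symm]

lemma F_z (l : Line (E P a b s) ι) {x : P.X} (h : P.π x ≠ a) (h' : P.π x ≠ b) :
    F l x = (some l, fun _ => x) := by
  simp [F, h, h']

lemma π_F (hab : a ≠ b) (l : Line (E P a b s) ι) (x : P.X) (t : ι) :
    P.π ((F l x).2 t) = P.π x := by
  by_cases h : P.π x = a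
  · rw [F_a l h]
    cases ht : l.idxFun t with
    | none => simp [ht]
    | some e => simp [ht, h, e.2.1]
  · by_cases h' : P.π x = b
    · rw [F_b hab l h']
      cases ht : l.idxFun t with
      | none => simp [ht]
      | some e => simp [ht, h', e.2.2.1]
    · rw [F_z l h h']

lemma F_at (hab : a ≠ b) (l : Line (E P a b s) ι) (x : P.X) {t : ι} (ht : l.idxFun t = none) :
    (F l x).2 t = x := by
  by_cases h : P.π x = a
  · rw [F_a l h]; simp [ht]
  · by_cases h' : P.π x = b
    · rw [F_b hab l h']; simp [ht]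
    · rw [F_z l h h']

lemma F_inj (hab : a ≠ b) (l : Line (E P a b s) ι) {x y : P.X} (h : F l x = F l y) : x = y := by
  obtain ⟨t, ht⟩ := l.proper
  rw [← F_at hab l x ht, h, F_at hab l y ht]

lemma F_some (hab : a ≠ b) {l l0 : Line (E P a b s) ι} {x : P.X} (h : (F l x).1 = some l0) :
    l = l0 ∧ P.π x ≠ a ∧ P.π x ≠ b := by
  by_cases h1 : P.π x = a
  · rw [F_a l h1] at h; simp at h
  · by_cases h2 : P.π x = b
    · rw [F_b hab l h2] at h; simp at h
    · rw [F_z l h1 h2] at h
      exact ⟨by simpa using h, h1, h2⟩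

lemma F_none {l : Line (E P a b s) ι} {x : P.X} (h : (F l x).1 = none) :
    P.π x = a ∨ P.π x = b := by
  by_contra hc
  push Not at hc
  rw [F_z l hc.1 hc.2] at h
  simp at h

/-- The new graph of edges of type `u`. -/
def G' (hab : a ≠ b) (u : Bool) : SimpleGraph (Option (Line (E P a b s) ι) × (ι → P.X)) where
  Adj p q := ∃ l x y, (P.Γ u).Adj x y ∧ F l x = p ∧ F l y = q
  symm := ⟨by
    rintro p q ⟨l, x, y, h, h1, h2⟩
    exact ⟨l, y, x, h.symm, h2, h1⟩⟩
  loopless := ⟨by
    rintro p ⟨l, x, y, h, h1, h2⟩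
    have := F_inj hab l (h1.trans h2.symm)
    exact h.ne this⟩

/-- In every coordinate an edge between the parts `a` and `b` has its own type or type `s`. -/
lemma coord (hab : a ≠ b) {u : Bool} {p q : Option (Line (E P a b s) ι) × (ι → P.X)}
    (h : (G' hab u).Adj p q) (hp : p.1 = none) (hq : q.1 = none) (t : ι) :
    (P.Γ u).Adj (p.2 t) (q.2 t) ∨ (P.Γ s).Adj (p.2 t) (q.2 t) := by
  obtain ⟨l, x, y, h, rfl, rfl⟩ := h
  have hx := F_none hp
  have hy := F_none hq
  have hne := P.part u x y h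
  rcases hx with hx | hx
  · rcases hy with hy | hy
    · exact absurd (hx.trans hy.symm) hne
    · rw [F_a l hx, F_b hab l hy]
      cases ht : l.idxFun t with
      | none => left; simpa [ht] using h
      | some e => right; simpa [ht] using e.2.2.2
  · rcases hy with hy | hy
    · rw [F_b hab l hx, F_a l hy]
      cases ht : l.idxFun t with
      | none => left; simpa [ht] using h
      | some e => right; simpa [ht] using e.2.2.2.symm
    · exact absurd (hx.trans hy.symm) hne

lemma coordSome (hab : a ≠ b) {u : Bool} {p q : Option (Line (E P a b s) ι) × (ι → P.X)}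
    (h : (G' hab u).Adj p q) : ∃ t, (P.Γ u).Adj (p.2 t) (q.2 t) := by
  obtain ⟨l, x, y, h, rfl, rfl⟩ := h
  obtain ⟨t, ht⟩ := l.proper
  refine ⟨t, ?_⟩
  rw [F_at hab l x ht, F_at hab l y ht]
  exact h

/-- Edges of different types stay different. -/
lemma disj' (hab : a ≠ b) {u v : Bool} {p q : Option (Line (E P a b s) ι) × (ι → P.X)}
    (h : (G' hab u).Adj p q) (h' : (G' hab v).Adj p q) : u = v := by
  -- the case where the edge lies on a single line
  have key : ∀ {l0 : Line (E P a b s) ι} {p q : Option (Line (E P a b s) ι) × (ι → P.X)},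
      p.1 = some l0 → (G' hab u).Adj p q → (G' hab v).Adj p q → u = v := by
    rintro l0 p q hp ⟨l, x, y, h1, h2, h3⟩ ⟨l', x', y', h1', h2', h3'⟩
    have e1 : (F l x).1 = some l0 := by rw [h2]; exact hp
    have e2 : (F l' x').1 = some l0 := by rw [h2']; exact hp
    obtain ⟨rfl, -, -⟩ := F_some hab e1
    obtain ⟨rfl, -, -⟩ := F_some hab e2
    have e3 := F_inj hab _ (h2.trans h2'.symm)
    have e4 := F_inj hab _ (h3.trans h3'.symm)
    subst e3
    subst e4
    exact P.disj u v _ _ h1 h1'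
  cases hp : p.1 with
  | some l0 => exact key hp h h'
  | none =>
    cases hq : q.1 with
    | some l0 => exact key hq h.symm h'.symm
    | none =>
      by_contra hne
      have hs : u = s ∨ v = s := by
        revert hne
        cases u <;> cases v <;> cases s <;> simp
      rcases hs with rfl | rfl
      · obtain ⟨t, ht⟩ := coordSome hab h'
        have := coord hab h hp hq t
        rw [or_self] at this
        exact hne (P.disj _ _ _ _ this ht)
      · obtain ⟨t, ht⟩ := coordSome hab h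
        have := coord hab h' hp hq t
        rw [or_self] at this
        exact hne (P.disj _ _ _ _ ht this)

instance finLine [Finite ι] [Finite P.X] : Finite (Line (E P a b s) ι) :=
  Finite.of_injective (fun l : Line (E P a b s) ι => l.idxFun) (by
    intro l l' h
    ext1
    exact h)

lemma cliqueFree (hab : a ≠ b) {u : Bool} {n : ℕ} (hn : 2 ≤ n) (hP : (P.Γ u).CliqueFree (n + 1))
    (t0 : ι) : (G' (P := P) (s := s) (ι := ι) hab u).CliqueFree (n + 1) := by
  classical
  intro S hS
  have hcl := hS.isClique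
  have hcard := hS.card_eq
  have hother : ∀ p ∈ S, ∃ q ∈ S, q ≠ p := by
    intro p hp
    apply Finset.exists_mem_ne (by omega)
  -- some vertex of `S` is of the form `(some l0, z)`
  have hex : ∃ p ∈ S, ∃ l0, p.1 = some l0 := by
    by_contra hc
    push Not at hc
    have hnone : ∀ p ∈ S, p.1 = none := by
      intro p hp
      cases h : p.1 with
      | none => rfl
      | some l => exact absurd h (hc p hp l)
    have hmaps : ∀ p ∈ S, P.π (p.2 t0) ∈ ({a, b} : Finset (Fin N)) := by
      intro p hp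
      obtain ⟨q, hq, hqp⟩ := hother p hp
      obtain ⟨l, x, y, h, h1, h2⟩ := hcl hp hq hqp.symm
      have h3 : (F l x).1 = none := by rw [h1]; exact hnone p hp
      have h4 := F_none h3
      have h5 := π_F hab l x t0
      rw [h1] at h5
      rw [h5]
      simpa using h4
    have hinj : Set.InjOn (fun p : Option (Line (E P a b s) ι) × (ι → P.X) => P.π (p.2 t0)) S := by
      intro p hp q hq hpq
      by_contra hne
      have := hcl hp hq hne
      rcases coord hab this (hnone p hp) (hnone q hq) t0 with h | h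
      · exact P.part _ _ _ h hpq
      · exact P.part _ _ _ h hpq
    have h1 := Finset.card_le_card_of_injOn _ hmaps hinj
    have h2 : ({a, b} : Finset (Fin N)).card ≤ 2 := Finset.card_le_two
    omega
  obtain ⟨p, hp, l0, hpl⟩ := hex
  obtain ⟨t1, ht1⟩ := l0.proper
  have himg : ∀ q ∈ S, F l0 (q.2 t1) = q := by
    have key : ∀ q, (∃ l x y, (P.Γ u).Adj x y ∧ F l x = p ∧ F l y = q) →
        F l0 (q.2 t1) = q ∧ F l0 (p.2 t1) = p := by
      rintro q ⟨l, x, y, h, h1, h2⟩
      have h3 : (F l x).1 = some l0 := by rw [h1]; exact hpl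
      obtain ⟨rfl, -, -⟩ := F_some hab h3
      constructor
      · rw [← h2, F_at hab l y ht1]
      · rw [← h1, F_at hab l x ht1]
    intro q hq
    by_cases hqp : q = p
    · subst hqp
      obtain ⟨q', hq', hne⟩ := hother q hq
      exact (key q' (hcl hq hq' hne.symm)).2
    · exact (key q (hcl hp hq (Ne.symm hqp))).1
  apply hP (S.image (fun q => q.2 t1))
  have hinj : Set.InjOn (fun q : Option (Line (E P a b s) ι) × (ι → P.X) => q.2 t1) S := by
    intro q hq q' hq' h
    have h1 := himg q hq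
    have h2 := himg q' hq'
    simp only at h
    rw [← h1, ← h2, h]
  refine ⟨?_, by rw [Finset.card_image_of_injOn hinj, hcard]⟩
  intro x hx y hy hxy
  simp only [Finset.coe_image, Set.mem_image, Finset.mem_coe] at hx hy
  obtain ⟨q, hq, rfl⟩ := hx
  obtain ⟨q', hq', rfl⟩ := hy
  have hne : q ≠ q' := fun h => hxy (by rw [h])
  have hadj := hcl hq hq' hne
  cases hq1 : q.1 with
  | some l1 =>
    obtain ⟨l, x, y, h, h1, h2⟩ := hadj
    have h3 : (F l x).1 = some l1 := by rw [h1]; exact hq1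
    have h4 : (F l0 (q.2 t1)).1 = some l1 := by rw [himg q hq]; exact hq1
    obtain ⟨rfl, -, -⟩ := F_some hab h3
    obtain ⟨rfl, -, -⟩ := F_some hab h4
    rw [← h1, ← h2, F_at hab _ x ht1, F_at hab _ y ht1]
    exact h
  | none =>
    cases hq1' : q'.1 with
    | none =>
      rcases coord hab hadj hq1 hq1' t1 with h | h
      · exact h
      · have h5 : (G' hab s).Adj q q' := ⟨l0, _, _, h, himg q hq, himg q' hq'⟩
        have h6 := disj' hab h5 hadj
        subst h6
        exact h
    | some l1 =>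
      obtain ⟨l, x, y, h, h1, h2⟩ := hadj
      have h3 : (F l y).1 = some l1 := by rw [h2]; exact hq1'
      have h4 : (F l0 (q'.2 t1)).1 = some l1 := by rw [himg q' hq']; exact hq1'
      obtain ⟨rfl, -, -⟩ := F_some hab h3
      obtain ⟨rfl, -, -⟩ := F_some hab h4
      rw [← h1, ← h2, F_at hab _ x ht1, F_at hab _ y ht1]
      exact h

end Step

/-- One step of the partite construction. -/
theorem step {N : ℕ} {n : Bool → ℕ} (hn : ∀ u, 2 ≤ n u) (κ : Type) [Finite κ] [Nonempty κ]
    (P : Sys N) (hP : ∀ u, (P.Γ u).CliqueFree (n u + 1)) (a b : Fin N) (s : Bool) (hab : a ≠ b) :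
    ∃ Q : Sys N, (∀ u, (Q.Γ u).CliqueFree (n u + 1)) ∧
      ∀ χ : Q.X → Q.X → κ, ∃ f : Emb P Q, ∃ c : κ,
      ∀ x y, P.π x = a → P.π y = b → (P.Γ s).Adj x y → χ (f.f x) (f.f y) = c := by
  classical
  have := P.fin
  obtain ⟨ι, hι, hHJ⟩ := Line.exists_mono_in_high_dimension (E P a b s) κ
  have ht0 : ∃ t : ι, True := by
    obtain ⟨l, -⟩ := hHJ (fun _ => Classical.arbitrary κ)
    obtain ⟨i, -⟩ := l.proper
    exact ⟨i, trivial⟩
  obtain ⟨t0, -⟩ := ht0
  have : Finite (Option (Line (E P a b s) ι) × (ι → P.X)) := inferInstance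
  refine ⟨⟨Option (Line (E P a b s) ι) × (ι → P.X), inferInstance, G' hab,
    fun p => P.π (p.2 t0), ?_, fun u v p q h h' => disj' hab h h'⟩,
    fun u => cliqueFree hab (hn u) (hP u) t0, ?_⟩
  · rintro u p q ⟨l, x, y, h, rfl, rfl⟩
    simp only [π_F hab]
    exact P.part u x y h
  · intro χ
    obtain ⟨l, c, hc⟩ := hHJ (fun w => χ (none, fun t => (w t).1.1) (none, fun t => (w t).1.2))
    refine ⟨⟨F l, fun u x y h => ⟨l, x, y, h, rfl, rfl⟩, fun x => π_F hab l x t0⟩, c, ?_⟩
    intro x y hx hy h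
    have := hc ⟨(x, y), hx, hy, h⟩
    rw [← this]
    simp only
    congr 1
    · rw [F_a l hx]
      congr 1
      funext t
      rw [Line.coe_apply]
      cases l.idxFun t <;> simp
    · rw [F_b hab l hy]
      congr 1
      funext t
      rw [Line.coe_apply]
      cases l.idxFun t <;> simp

/-- Iterating over a list of pairs of parts and types. -/
theorem steps {N : ℕ} {n : Bool → ℕ} (hn : ∀ u, 2 ≤ n u) (κ : Type) [Finite κ] [Nonempty κ]
    (L : List ((Fin N × Fin N) × Bool)) (hL : ∀ p ∈ L, p.1.1 ≠ p.1.2) :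
    ∀ (P : Sys N), (∀ u, (P.Γ u).CliqueFree (n u + 1)) →
    ∃ Q : Sys N, (∀ u, (Q.Γ u).CliqueFree (n u + 1)) ∧ ∀ χ : Q.X → Q.X → κ, ∃ f : Emb P Q,
      ∀ p ∈ L, ∃ c : κ,
      ∀ x y, P.π x = p.1.1 → P.π y = p.1.2 → (P.Γ p.2).Adj x y → χ (f.f x) (f.f y) = c := by
  induction L with
  | nil =>
    intro P hP
    exact ⟨P, hP, fun χ => ⟨⟨id, fun u x y h => h, fun x => rfl⟩, by simp⟩⟩
  | cons p L ih =>
    intro P hP
    obtain ⟨Q1, hQ1, h1⟩ := step hn κ P hP p.1.1 p.1.2 p.2 (hL p (by simp))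
    obtain ⟨Q2, hQ2, h2⟩ := ih (fun p hp => hL p (by simp [hp])) Q1 hQ1
    refine ⟨Q2, hQ2, fun χ => ?_⟩
    obtain ⟨g, hg⟩ := h2 χ
    obtain ⟨f, c, hf⟩ := h1 (fun x y => χ (g.f x) (g.f y))
    refine ⟨⟨fun x => g.f (f.f x), fun u x y h => g.adj u _ _ (f.adj u _ _ h),
      fun x => (g.part _).trans (f.part x)⟩, ?_⟩
    intro p' hp'
    rcases List.mem_cons.1 hp' with rfl | hp'
    · exact ⟨c, hf⟩
    · obtain ⟨c', hc'⟩ := hg p' hp'
      refine ⟨c', fun x y hx hy h => ?_⟩
      exact hc' _ _ ((f.part x).trans hx) ((f.part y).trans hy) (f.adj _ _ _ h)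

/-- The starting system: disjoint copies of the structure `T`, one over each `m`-set of parts. -/
def P0 {m : ℕ} (T : Bool → SimpleGraph (Fin m))
    (hT : ∀ u v x y, (T u).Adj x y → (T v).Adj x y → u = v) (N : ℕ) : Sys N where
  X := (Fin m ↪o Fin N) × Fin m
  fin := by
    have : Finite (Fin m ↪o Fin N) := Finite.of_injective (fun f => (f : Fin m → Fin N))
      (fun f g h => by ext x; exact congrArg Fin.val (congrFun h x))
    infer_instance
  Γ u :=
    { Adj := fun p q => p.1 = q.1 ∧ (T u).Adj p.2 q.2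
      symm := ⟨fun p q h => ⟨h.1.symm, h.2.symm⟩⟩
      loopless := ⟨fun p h => h.2.ne rfl⟩ }
  π p := p.1 p.2
  part := by
    rintro u ⟨S, i⟩ ⟨T, j⟩ ⟨h1, h2⟩ h
    simp only at h1 h2 h
    subst h1
    exact h2.ne (S.injective h)
  disj := by
    rintro u v ⟨S, i⟩ ⟨S', j⟩ ⟨h1, h2⟩ ⟨h3, h4⟩
    exact hT u v _ _ h2 h4

/-- Second coordinate. -/
def snd0 {m : ℕ} (T : Bool → SimpleGraph (Fin m))
    (hT : ∀ u v x y, (T u).Adj x y → (T v).Adj x y → u = v) (N : ℕ) : (P0 T hT N).X → Fin m :=
  fun p => Prod.snd (α := Fin m ↪o Fin N) p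

lemma P0_cliqueFree {m : ℕ} (T : Bool → SimpleGraph (Fin m))
    (hT : ∀ u v x y, (T u).Adj x y → (T v).Adj x y → u = v) (N : ℕ) (u : Bool) (n : ℕ)
    (h : (T u).CliqueFree n) : ((P0 T hT N).Γ u).CliqueFree n := by
  classical
  intro s hs
  have hcl := hs.isClique
  have hcard := hs.card_eq
  have hadj : ∀ p ∈ s, ∀ q ∈ s, p ≠ q → (T u).Adj (snd0 T hT N p) (snd0 T hT N q) :=
    fun p hp q hq hne => (hcl hp hq hne).2
  have hinj : Set.InjOn (snd0 T hT N) (s : Set (P0 T hT N).X) := by
    intro p hp q hq h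
    by_contra hne
    exact (hadj p hp q hq hne).ne h
  apply h (s.image (snd0 T hT N))
  refine ⟨?_, by rw [Finset.card_image_of_injOn hinj, hcard]⟩
  intro x hx y hy hxy
  simp only [Finset.coe_image, Set.mem_image, Finset.mem_coe] at hx hy
  obtain ⟨p, hp, rfl⟩ := hx
  obtain ⟨q, hq, rfl⟩ := hy
  exact hadj p hp q hq (fun h => hxy (by rw [h]))

/-- **Nešetřil–Rödl** for two types of edges, forbidding for each type a clique. -/
theorem twoTypes {m : ℕ} (T : Bool → SimpleGraph (Fin m))
    (hT : ∀ u v x y, (T u).Adj x y → (T v).Adj x y → u = v) (n : Bool → ℕ)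
    (hn : ∀ u, 2 ≤ n u) (hfree : ∀ u, (T u).CliqueFree (n u + 1))
    (κ : Type) [Finite κ] [Nonempty κ] :
    ∃ (X : Type) (_ : Finite X) (Γ : Bool → SimpleGraph X),
      (∀ u v x y, (Γ u).Adj x y → (Γ v).Adj x y → u = v) ∧
      (∀ u, (Γ u).CliqueFree (n u + 1)) ∧
      ∀ χ : X → X → κ, ∃ (e : Fin m → X) (c : Bool → κ),
        ∀ i j, i < j → ∀ u, (T u).Adj i j → (Γ u).Adj (e i) (e j) ∧ χ (e i) (e j) = c u := by
  classical
  obtain ⟨N, hN⟩ := H267R3.Folk.ramseyPairs (Bool → κ) m
  obtain ⟨Q, hQ, h⟩ := steps hn κ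
    ((Finset.univ.filter (fun p : (Fin N × Fin N) × Bool => p.1.1 ≠ p.1.2)).toList) (by simp)
    (P0 T hT N) (fun u => P0_cliqueFree T hT N u _ (hfree u))
  refine ⟨Q.X, Q.fin, Q.Γ, Q.disj, hQ, fun χ => ?_⟩
  obtain ⟨f, hf⟩ := h χ
  have hf' : ∀ (a b : Fin N) (u : Bool), ∃ c : κ, a ≠ b → ∀ x y, (P0 T hT N).π x = a →
      (P0 T hT N).π y = b → ((P0 T hT N).Γ u).Adj x y → χ (f.f x) (f.f y) = c := by
    intro a b u
    by_cases hab : a = b
    · exact ⟨Classical.arbitrary κ, fun h => absurd hab h⟩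
    · obtain ⟨c, hc⟩ := hf ((a, b), u) (by simpa using hab)
      exact ⟨c, fun _ => hc⟩
  choose c hc using hf'
  obtain ⟨S, y, hS⟩ := hN (fun a b u => c a b u)
  obtain ⟨y', hy'⟩ : ∃ y' : Bool → κ, ∀ i j, i < j → (fun u => c (S i) (S j) u) = y' := by
    cases y with
    | inl y' => exact ⟨y', fun i j hij => Sum.inl.inj (hS i j hij)⟩
    | inr z =>
      exact ⟨Classical.arbitrary _, fun i j hij => by have := hS i j hij; simp at this⟩
  refine ⟨fun i => f.f (S, i), y', fun i j hij u hadj => ?_⟩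
  have hadj' : ((P0 T hT N).Γ u).Adj (S, i) (S, j) := ⟨rfl, hadj⟩
  refine ⟨f.adj _ _ _ hadj', ?_⟩
  rw [← hy' i j hij]
  exact hc (S i) (S j) u (fun h => hij.ne (S.injective h)) (S, i) (S, j) rfl rfl hadj'

end R889.Tri
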